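import Pool.Agent.W423.NC.Defs
import Pool.Agent.W425.SM.FF

set_option autoImplicit false

/-! The honest and the formal integrals with general weights. -/

namespace Pool.Agent.W191.NC

open MvPolynomial Pool.Agent.H628R4.TZ Pool.Agent.W425.SM Pool.Agent.W423.NC
open Pool.Agent.H628R4.TP hiding Sh
open Pool.Agent.W525.SM (Sh)
open MeasureTheory Set Filter Topology

variable {r N : ℕ}

/-- the honest integral over the face `S` -/
noncomputable def HW (v : Fin r → Fin N → ℕ) (w : Fin N → ℝ) (ε : ℝ) (κ : Fin r → ℕ) (s : ℝ)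
    (y0 : Fin r → ℝ) (S : Finset (Fin N)) (p : MvPolynomial (Fin r) ℂ) : ℂ :=
  ∫ x, wt (lmw s w) x * DD (pk ε κ) (Y (av v) y0 x) p
    ∂(Measure.pi (ms (S.map (Fin.succEmb N))))

lemma HW_integrable (v : Fin r → Fin N → ℕ) (w : Fin N → ℝ) (hwp : ∀ i, 0 < w i) (ε : ℝ)
    (hε : 0 < ε) (κ : Fin r → ℕ) (s : ℝ)
    (hs : (Lam v κ : ℝ) + 1 ≤ s) (y0 : Fin r → ℝ) (S : Finset (Fin N))
    (p : MvPolynomial (Fin r) ℂ) (hp : Gd v ε κ S p) :
    Integrable (fun x => wt (lmw s w) x * DD (pk ε κ) (Y (av v) y0 x) p)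
      (Measure.pi (ms (S.map (Fin.succEmb N)))) := by
  obtain ⟨C, hC0, hC⟩ := DD_growth ε hε κ p
  set C1 : ℝ := Lam v κ * (ε + ∑ j, |y0 j|) + ∑ j, (κ j : ℝ) * |y0 j| with hC1
  have hint := wt_integrable (S.map (Fin.succEmb N)) (Fin.cons 1 w : Fin (N+1) → ℝ)
    (fun i => by refine Fin.cases ?_ (fun j => ?_) i <;> simp [hwp])
  refine Integrable.mono' (hint.norm.const_mul (C * Real.exp C1)) ?_ ?_
  · refine Continuous.aestronglyMeasurable ?_
    refine Continuous.mul ?_ ((DD_cont ε hε κ p).comp (Y_cont _ _))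
    unfold wt
    fun_prop
  · filter_upwards [ae_ms (S.map (Fin.succEmb N))] with x hx
    obtain ⟨hx0, hxS⟩ := hx
    rw [norm_mul]
    by_cases hne : DD (pk ε κ) (Y (av v) y0 x) p = 0
    · rw [hne, norm_zero, mul_zero]; positivity
    have hw : ∀ lam : Fin (N+1) → ℝ, ‖wt lam x‖ = Real.exp (-∑ k, lam k * x k) := by
      intro lam
      rw [wt, ← Complex.ofReal_prod, Complex.norm_real, ← Real.exp_sum,
        Real.norm_of_nonneg (Real.exp_pos _).le, ← Finset.sum_neg_distrib]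
      congr 1
      exact Finset.sum_congr rfl fun k _ => by ring
    rw [hw, hw]
    refine (mul_le_mul_of_nonneg_left (hC _) (Real.exp_pos _).le).trans ?_
    rw [mul_comm C, ← mul_assoc, ← Real.exp_add, mul_comm C, mul_right_comm, ← Real.exp_add]
    refine mul_le_mul_of_nonneg_right (Real.exp_le_exp.2 ?_) hC0
    rw [sum_kap_Y]
    have h1 : ∑ k, lmw s w k * x k = s * x 0 + ∑ i : Fin N, w i * x i.succ := by
      rw [Fin.sum_univ_succ]
      simp [lmw]
    have h2 : ∑ k : Fin (N+1), (Fin.cons 1 w : Fin (N+1) → ℝ) k * x k =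
        x 0 + ∑ i : Fin N, w i * x i.succ := by
      rw [Fin.sum_univ_succ]
      simp
    rw [h1, h2]
    have h3 : ∀ i : Fin N, (ell v κ i : ℝ) * x i.succ ≤
        (ell v κ i : ℝ) * (ε + x 0 + ∑ j, |y0 j|) := by
      intro i
      have hpos : 0 ≤ ε + x 0 + ∑ j, |y0 j| := by
        have := hx0 0
        positivity
      rcases Nat.eq_zero_or_pos (ell v κ i) with h | h
      · rw [h]; simp
      · refine mul_le_mul_of_nonneg_left ?_ (Nat.cast_nonneg _)
        by_cases hi : i ∈ S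
        · rw [hxS i.succ (by simp [hi])]
          exact hpos
        · exact coord_le v ε κ y0 i p (hp i hi h) x (fun k _ => hx0 k) hne (hx0 _)
    have h4 : ∑ i : Fin N, (ell v κ i : ℝ) * x i.succ ≤ (Lam v κ : ℝ) * (ε + x 0 + ∑ j, |y0 j|) := by
      refine (Finset.sum_le_sum fun i _ => h3 i).trans (le_of_eq ?_)
      rw [← Finset.sum_mul]
      unfold Lam
      push_cast
      rfl
    have h5 : ∑ j, (κ j : ℝ) * y0 j ≤ ∑ j, (κ j : ℝ) * |y0 j| :=
      Finset.sum_le_sum fun j _ => mul_le_mul_of_nonneg_left (le_abs_self _) (Nat.cast_nonneg _)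
    have h6 : 0 ≤ (∑ j, (κ j : ℝ)) * x 0 := mul_nonneg (by positivity) (hx0 0)
    have h7 : ((Lam v κ : ℝ) + 1) * x 0 ≤ s * x 0 := mul_le_mul_of_nonneg_right hs (hx0 0)
    rw [hC1]
    nlinarith

/-- Stokes -/
lemma HW_step (v : Fin r → Fin N → ℕ) (w : Fin N → ℝ) (hwp : ∀ i, 0 < w i) (ε : ℝ) (hε : 0 < ε)
    (κ : Fin r → ℕ) (s : ℝ)
    (hs : (Lam v κ : ℝ) + 1 ≤ s) (y0 : Fin r → ℝ) (S : Finset (Fin N)) (i : Fin N) (hi : i ∉ S)
    (p : MvPolynomial (Fin r) ℂ) (hp : Gd v ε κ S p) :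
    HW v w ε κ s y0 S (elW v w i * p) = HW v w ε κ s y0 (insert i S) p := by
  unfold HW
  have hp1 : Gd v ε κ S (elW v w i * p) := fun i' hi' h => (hp i' hi' h).mul_left _
  have hp2 : Gd v ε κ (insert i S) p := fun i' hi' h =>
    hp i' (fun h' => hi' (Finset.mem_insert_of_mem h')) h
  rw [pi_split _ i.succ _ (HW_integrable v w hwp ε hε κ s hs y0 S _ hp1),
    pi_split _ i.succ _ (HW_integrable v w hwp ε hε κ s hs y0 (insert i S) _ hp2)]
  have hms : (fun j => ms ((insert i S).map (Fin.succEmb N)) (i.succ.succAbove j)) =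
      fun j => ms (S.map (Fin.succEmb N)) (i.succ.succAbove j) := by
    funext j
    unfold ms
    have h1 : i.succ.succAbove j ≠ i.succ := Fin.succAbove_ne i.succ j
    congr 1
    simp [Finset.mem_map, Finset.mem_insert]
  rw [hms]
  refine integral_congr_ae (Eventually.of_forall fun x' => ?_)
  have hw : ∀ t : ℝ, wt (lmw s w) (i.succ.insertNth (α := fun _ => ℝ) t x') =
      ((Real.exp (-(w i) * t) : ℝ) : ℂ) *
        ∏ j, ((Real.exp (-lmw s w (i.succ.succAbove j) * x' j) : ℝ) : ℂ) := by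
    intro t
    unfold wt
    rw [Fin.prod_univ_succAbove _ i.succ]
    simp [lmw]
  set wp := ∏ j, ((Real.exp (-lmw s w (i.succ.succAbove j) * x' j) : ℝ) : ℂ) with hwdef
  have hmsi : ms (S.map (Fin.succEmb N)) i.succ = volume.restrict (Ioi 0) := by
    simp [ms, hi]
  have hmsi' : ms ((insert i S).map (Fin.succEmb N)) i.succ = Measure.dirac 0 := by simp [ms]
  simp only [hmsi, hmsi']
  rw [integral_dirac]
  simp only [hw]
  obtain ⟨K, hK⟩ := dir_bdd v ε hε κ y0 i p (hp i hi) x'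
  obtain ⟨K', hK'⟩ := dir_bdd v ε hε κ y0 i (Lf (fun j => (v j i : ℝ)) * p)
    (fun h => (hp i hi h).mul_left _) x'
  have hcont : Continuous (fun t : ℝ => Y (av v) y0 (i.succ.insertNth (α := fun _ => ℝ) t x')) := by
    refine continuous_pi fun j => ?_
    exact continuous_iff_continuousAt.2 fun t => (insertNth_Y v y0 i x' j t).continuousAt
  have h6 := one_dim (fun t => DD (pk ε κ) (Y (av v) y0 (i.succ.insertNth (α := fun _ => ℝ) t x')) p)
    (fun t => -(DD (pk ε κ) (Y (av v) y0 (i.succ.insertNth (α := fun _ => ℝ) t x'))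
      (Lf (fun j => (v j i : ℝ)) * p)))
    (w i) (hwp i) (fun t => DD_hasDerivAt ε hε κ p (fun j => (v j i : ℝ)) _ t
      (fun j => insertNth_Y v y0 i x' j t)) K K'
    (fun t => hK _) (fun t => by rw [norm_neg]; exact hK' _)
    ((DD_cont ε hε κ _).comp hcont).neg
  have h7 : ∀ t : ℝ, (((Real.exp (-(w i) * t) : ℝ) : ℂ) * wp) *
      DD (pk ε κ) (Y (av v) y0 (i.succ.insertNth (α := fun _ => ℝ) t x')) (elW v w i * p) =
      wp * (((Real.exp (-(w i) * t) : ℝ) : ℂ) *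
        (((w i : ℝ) : ℂ) * DD (pk ε κ) (Y (av v) y0 (i.succ.insertNth (α := fun _ => ℝ) t x')) p -
        -(DD (pk ε κ) (Y (av v) y0 (i.succ.insertNth (α := fun _ => ℝ) t x'))
          (Lf (fun j => (v j i : ℝ)) * p)))) := by
    intro t
    rw [elW, add_mul, map_add, C_mul', map_smul, smul_eq_mul]
    ring
  simp only [h7]
  rw [integral_const_mul, h6]
  simp

/-- The formal integral: in the growing directions of the list `L` the integral of a function
which is eventually `const * exp (-λ w)`, `λ < 0`, is defined by Stokes' formula. -/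
noncomputable def FW (v : Fin r → Fin N → ℕ) (w : Fin N → ℝ) (ε : ℝ) (κ : Fin r → ℕ) (s : ℝ)
    (y0 : Fin r → ℝ) :
    List (Fin N) → Finset (Fin N) → MvPolynomial (Fin r) ℂ → ℂ
  | [], S, p => HW v w ε κ s y0 S p
  | i :: L, S, p => (((w i : ℝ) : ℂ) - (ell v κ i : ℂ))⁻¹ *
      (FW v w ε κ s y0 L (insert i S) p - FW v w ε κ s y0 L S (mm v κ i * p))

lemma HW_sum (v : Fin r → Fin N → ℕ) (w : Fin N → ℝ) (hwp : ∀ i, 0 < w i) (ε : ℝ) (hε : 0 < ε)
    (κ : Fin r → ℕ) (s : ℝ)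
    (hs : (Lam v κ : ℝ) + 1 ≤ s) (y0 : Fin r → ℝ) (S : Finset (Fin N)) {ι : Type*}
    (t : Finset ι) (p : ι → MvPolynomial (Fin r) ℂ) (hp : ∀ c ∈ t, Gd v ε κ S (p c)) :
    HW v w ε κ s y0 S (∑ c ∈ t, p c) = ∑ c ∈ t, HW v w ε κ s y0 S (p c) := by
  unfold HW
  simp only [map_sum, Finset.mul_sum]
  exact integral_finsetSum _ fun c hc => HW_integrable v w hwp ε hε κ s hs y0 S _ (hp c hc)

lemma HW_C (v : Fin r → Fin N → ℕ) (w : Fin N → ℝ) (ε : ℝ) (κ : Fin r → ℕ) (s : ℝ)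
    (y0 : Fin r → ℝ) (S : Finset (Fin N)) (c : ℂ) (p : MvPolynomial (Fin r) ℂ) :
    HW v w ε κ s y0 S (C c * p) = c * HW v w ε κ s y0 S p := by
  unfold HW
  rw [← integral_const_mul]
  refine integral_congr_ae (Eventually.of_forall fun x => ?_)
  simp only
  rw [C_mul', map_smul, smul_eq_mul]
  ring

lemma FW_sum (v : Fin r → Fin N → ℕ) (w : Fin N → ℝ) (hwp : ∀ i, 0 < w i) (ε : ℝ) (hε : 0 < ε)
    (κ : Fin r → ℕ) (s : ℝ)
    (hs : (Lam v κ : ℝ) + 1 ≤ s) (y0 : Fin r → ℝ) {ι : Type*} (t : Finset ι) (L : List (Fin N)) :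
    ∀ (S : Finset (Fin N)) (p : ι → MvPolynomial (Fin r) ℂ), (∀ c ∈ t, Hyp v ε κ L S (p c)) →
    FW v w ε κ s y0 L S (∑ c ∈ t, p c) = ∑ c ∈ t, FW v w ε κ s y0 L S (p c) := by
  induction L with
  | nil =>
    intro S p hp
    exact HW_sum v w hwp ε hε κ s hs y0 S t p fun c hc i hi h => hp c hc i hi (by simp) h
  | cons i L ih =>
    intro S p hp
    simp only [FW]
    rw [Finset.mul_sum, ih _ _ (fun c hc => (hp c hc).insert_right),
      ih _ _ (fun c hc => (hp c hc).mm_right hε), ← Finset.sum_sub_distrib, Finset.mul_sum]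

lemma FW_C (v : Fin r → Fin N → ℕ) (w : Fin N → ℝ) (ε : ℝ) (κ : Fin r → ℕ) (s : ℝ)
    (y0 : Fin r → ℝ)
    (L : List (Fin N)) : ∀ (S : Finset (Fin N)) (c : ℂ) (p : MvPolynomial (Fin r) ℂ),
    FW v w ε κ s y0 L S (C c * p) = c * FW v w ε κ s y0 L S p := by
  induction L with
  | nil => intro S c p; exact HW_C v w ε κ s y0 S c p
  | cons i L ih =>
    intro S c p
    simp only [FW]
    rw [mul_left_comm, ih, ih]
    ring

lemma FW_add (v : Fin r → Fin N → ℕ) (w : Fin N → ℝ) (hwp : ∀ i, 0 < w i) (ε : ℝ) (hε : 0 < ε)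
    (κ : Fin r → ℕ) (s : ℝ)
    (hs : (Lam v κ : ℝ) + 1 ≤ s) (y0 : Fin r → ℝ) (L : List (Fin N)) (S : Finset (Fin N))
    (p q : MvPolynomial (Fin r) ℂ) (hp : Hyp v ε κ L S p) (hq : Hyp v ε κ L S q) :
    FW v w ε κ s y0 L S (p + q) = FW v w ε κ s y0 L S p + FW v w ε κ s y0 L S q := by
  have h := FW_sum v w hwp ε hε κ s hs y0 (Finset.univ : Finset (Fin 2)) L S
    (fun c => if c = 0 then p else q) (by
      intro c _
      fin_cases c
      · simpa using hp
      · simpa using hq)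
  simpa only [Fin.sum_univ_two, Fin.isValue, ↓reduceIte, one_ne_zero] using h

lemma FW_sub (v : Fin r → Fin N → ℕ) (w : Fin N → ℝ) (hwp : ∀ i, 0 < w i) (ε : ℝ) (hε : 0 < ε)
    (κ : Fin r → ℕ) (s : ℝ)
    (hs : (Lam v κ : ℝ) + 1 ≤ s) (y0 : Fin r → ℝ) (L : List (Fin N)) (S : Finset (Fin N))
    (p q : MvPolynomial (Fin r) ℂ) (hp : Hyp v ε κ L S p) (hq : Hyp v ε κ L S q) :
    FW v w ε κ s y0 L S (p - q) = FW v w ε κ s y0 L S p - FW v w ε κ s y0 L S q := by
  have h2 : p - q = p + C (-1) * q := by simp [sub_eq_add_neg]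
  rw [h2, FW_add v w hwp ε hε κ s hs y0 L S _ _ hp (hq.mul_left _), FW_C]
  ring

/-- Stokes in a direction outside the list -/
lemma FW_out (v : Fin r → Fin N → ℕ) (w : Fin N → ℝ) (hwp : ∀ i, 0 < w i) (ε : ℝ) (hε : 0 < ε)
    (κ : Fin r → ℕ) (s : ℝ)
    (hs : (Lam v κ : ℝ) + 1 ≤ s) (y0 : Fin r → ℝ) (i : Fin N) (L : List (Fin N)) :
    ∀ (S : Finset (Fin N)) (p : MvPolynomial (Fin r) ℂ), i ∉ S → i ∉ L → Hyp v ε κ L S p →
    FW v w ε κ s y0 L S (elW v w i * p) = FW v w ε κ s y0 L (insert i S) p := by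
  induction L with
  | nil =>
    intro S p hi _ hp
    exact HW_step v w hwp ε hε κ s hs y0 S i hi p fun i' hi' h => hp i' hi' (by simp) h
  | cons i' L ih =>
    intro S p hi hiL hp
    rw [List.mem_cons, not_or] at hiL
    simp only [FW]
    rw [mul_left_comm (mm v κ i'), ih (insert i' S) p (by simp [hiL.1, hi]) hiL.2 hp.insert_right,
      ih S _ hi hiL.2 (hp.mm_right hε), Finset.insert_comm]

lemma el_sub (v : Fin r → Fin N → ℕ) (w : Fin N → ℝ) (κ : Fin r → ℕ) (i : Fin N)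
    (p : MvPolynomial (Fin r) ℂ) :
    elW v w i * p = mm v κ i * p + C (((w i : ℝ) : ℂ) - (ell v κ i : ℂ)) * p := by
  unfold elW mm
  rw [← add_mul]
  congr 1
  rw [map_sub]
  ring

lemma wsub_ne (v : Fin r → Fin N → ℕ) (w : Fin N → ℝ) (κ : Fin r → ℕ) (i : Fin N)
    (hell : (ell v κ i : ℝ) ≠ w i) : ((w i : ℝ) : ℂ) - (ell v κ i : ℂ) ≠ 0 := by
  rw [sub_ne_zero]
  intro h
  exact hell (by exact_mod_cast h.symm)

/-- Stokes in a direction of the list -/
lemma FW_in (v : Fin r → Fin N → ℕ) (w : Fin N → ℝ) (hwp : ∀ i, 0 < w i) (ε : ℝ) (hε : 0 < ε)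
    (κ : Fin r → ℕ) (s : ℝ)
    (hs : (Lam v κ : ℝ) + 1 ≤ s) (y0 : Fin r → ℝ) (i : Fin N) (hell : (ell v κ i : ℝ) ≠ w i)
    (L : List (Fin N)) :
    ∀ (S : Finset (Fin N)) (p : MvPolynomial (Fin r) ℂ), i ∉ S → i ∈ L → L.Nodup →
      Hyp v ε κ L S p →
    FW v w ε κ s y0 L S (elW v w i * p) = FW v w ε κ s y0 (L.erase i) (insert i S) p := by
  classical
  induction L with
  | nil => intro S p _ h; simp at h
  | cons i' L ih =>
    intro S p hi hiL hnd hp
    rw [List.nodup_cons] at hnd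
    by_cases hii : i' = i
    · subst hii
      rw [List.erase_cons_head]
      simp only [FW]
      rw [mul_left_comm (mm v κ i'), FW_out v w hwp ε hε κ s hs y0 i' L S _ hi hnd.1
          (hp.mm_right hε),
        ← FW_sub v w hwp ε hε κ s hs y0 L (insert i' S) _ _ (hp.insert_right.mul_left _)
          (hp.insert_right.mul_left _)]
      have h1 : elW v w i' * p - mm v κ i' * p = C (((w i' : ℝ) : ℂ) - (ell v κ i' : ℂ)) * p := by
        rw [el_sub v w κ i' p]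
        ring
      rw [h1, FW_C, ← mul_assoc, inv_mul_cancel₀ (wsub_ne v w κ i' hell), one_mul]
    · have hiL' : i ∈ L := by
        rcases List.mem_cons.1 hiL with h | h
        · exact absurd h.symm hii
        · exact h
      rw [List.erase_cons_tail (by simpa using hii)]
      simp only [FW]
      rw [mul_left_comm (mm v κ i'), ih (insert i' S) p
        (by rw [Finset.mem_insert, not_or]; exact ⟨fun h => hii h.symm, hi⟩) hiL' hnd.2
        hp.insert_right, ih S _ hi hiL' hnd.2 (hp.mm_right hε), Finset.insert_comm]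

/-- agreement with the honest integral -/
lemma FW_eq (v : Fin r → Fin N → ℕ) (w : Fin N → ℝ) (hwp : ∀ i, 0 < w i) (ε : ℝ) (hε : 0 < ε)
    (κ : Fin r → ℕ) (s : ℝ)
    (hs : (Lam v κ : ℝ) + 1 ≤ s) (y0 : Fin r → ℝ) (L : List (Fin N)) :
    ∀ (S : Finset (Fin N)) (p : MvPolynomial (Fin r) ℂ), (∀ i ∈ L, i ∉ S) → L.Nodup →
      (∀ i ∈ L, (ell v κ i : ℝ) ≠ w i) → Gd v ε κ S p →
    FW v w ε κ s y0 L S p = HW v w ε κ s y0 S p := by
  induction L with
  | nil => intro S p _ _ _ _; rfl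
  | cons i L ih =>
    intro S p hLS hnd hell hp
    rw [List.nodup_cons] at hnd
    have hp2 : Gd v ε κ (insert i S) p := fun i' hi' h =>
      hp i' (fun h' => hi' (Finset.mem_insert_of_mem h')) h
    simp only [FW]
    rw [ih (insert i S) p (fun i' hi' => ?_) hnd.2 (fun i' hi' => hell i' (by simp [hi'])) hp2,
      ih S _ (fun i' hi' => hLS i' (by simp [hi'])) hnd.2 (fun i' hi' => hell i' (by simp [hi']))
        (fun i' hi' h => (hp i' hi' h).mul_left _),
      ← HW_step v w hwp ε hε κ s hs y0 S i (hLS i (by simp)) p hp]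
    · have h2 := HW_sum v w hwp ε hε κ s hs y0 S (Finset.univ : Finset (Fin 2))
        (fun c => if c = 0 then mm v κ i * p else C (((w i : ℝ) : ℂ) - (ell v κ i : ℂ)) * p) (by
          intro c _ i' hi' h
          fin_cases c
          · simpa using (hp i' hi' h).mul_left (mm v κ i)
          · exact (hp i' hi' h).mul_left (C (((w i : ℝ) : ℂ) - (ell v κ i : ℂ))))
      simp only [Fin.sum_univ_two, Fin.isValue, ↓reduceIte, one_ne_zero] at h2
      rw [el_sub v w κ i p, h2, HW_C, add_sub_cancel_left, ← mul_assoc,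
        inv_mul_cancel₀ (wsub_ne v w κ i (hell i (by simp))), one_mul]
    · rw [Finset.mem_insert, not_or]
      refine ⟨fun h => hnd.1 (h ▸ hi'), hLS i' (by simp [hi'])⟩

lemma FW_kill (v : Fin r → Fin N → ℕ) (w : Fin N → ℝ) (ε : ℝ) (κ : Fin r → ℕ) (s : ℝ)
    (y0 : Fin r → ℝ)
    (P : MvPolynomial (Fin r) ℂ) (S0 : Finset (Fin N))
    (h0 : ∀ (S : Finset (Fin N)) (q : MvPolynomial (Fin r) ℂ), S0 ⊆ S →
      HW v w ε κ s y0 S (q * P) = 0) (L : List (Fin N)) :
    ∀ (S : Finset (Fin N)) (q : MvPolynomial (Fin r) ℂ), S0 ⊆ S →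
      FW v w ε κ s y0 L S (q * P) = 0 := by
  induction L with
  | nil => intro S q hS; exact h0 S q hS
  | cons i L ih =>
    intro S q hS
    simp only [FW]
    rw [← mul_assoc (mm v κ i), ih _ _ hS, ih _ _ (hS.trans (Finset.subset_insert _ _))]
    simp

/-- iterated Stokes -/
lemma FW_steps (v : Fin r → Fin N → ℕ) (w : Fin N → ℝ) (hwp : ∀ i, 0 < w i) (ε : ℝ) (hε : 0 < ε)
    (κ : Fin r → ℕ) (s : ℝ)
    (hs : (Lam v κ : ℝ) + 1 ≤ s) (y0 : Fin r → ℝ) (B : Finset (Fin N)) :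
    ∀ (L : List (Fin N)) (S : Finset (Fin N)) (p : MvPolynomial (Fin r) ℂ),
      Disjoint B S → L.Nodup → (∀ i ∈ L, (ell v κ i : ℝ) ≠ w i) → Hyp v ε κ L S p →
    ∃ L', FW v w ε κ s y0 L S ((∏ i ∈ B, elW v w i) * p) = FW v w ε κ s y0 L' (B ∪ S) p := by
  classical
  induction B using Finset.induction_on with
  | empty => intro L S p _ _ _ _; exact ⟨L, by simp⟩
  | insert i B hi ih =>
    intro L S p hB hnd hell hp
    rw [Finset.disjoint_insert_left] at hB
    rw [Finset.prod_insert hi, mul_assoc]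
    by_cases hiL : i ∈ L
    · rw [FW_in v w hwp ε hε κ s hs y0 i (hell i hiL) L S _ hB.1 hiL hnd (hp.mul_left _)]
      obtain ⟨L', hL'⟩ := ih (L.erase i) (insert i S) p
        (by rw [Finset.disjoint_insert_right]; exact ⟨hi, hB.2⟩) (hnd.erase i)
        (fun i' hi' => hell i' (List.mem_of_mem_erase hi'))
        (fun i' h1 h2 h3 => by
          rw [Finset.mem_insert, not_or] at h1
          exact hp i' h1.2 (fun h => h2 ((List.mem_erase_of_ne h1.1).2 h)) h3)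
      exact ⟨L', by rw [hL', Finset.insert_union, Finset.union_insert]⟩
    · rw [FW_out v w hwp ε hε κ s hs y0 i L S _ hB.1 hiL (hp.mul_left _)]
      obtain ⟨L', hL'⟩ := ih L (insert i S) p
        (by rw [Finset.disjoint_insert_right]; exact ⟨hi, hB.2⟩) hnd hell
        (fun i' h1 h2 h3 => by
          rw [Finset.mem_insert, not_or] at h1
          exact hp i' h1.2 h2 h3)
      exact ⟨L', by rw [hL', Finset.insert_union, Finset.union_insert]⟩

/-- what is known at a point where the integrand does not vanish -/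
lemma nonvan (ε : ℝ) (hε : 0 < ε) (κ : Fin r → ℕ) (M : ℕ)
    (hκ : ∀ j, κ j ≤ M) (c : Fin r → ℤ) (y : Fin r → ℝ) (q : MvPolynomial (Fin r) ℂ)
    (hne' : DD (pk ε κ) y (q * (∏ j, (if c j < 0 then X j * dm M j else 1))) ≠ 0) :
    -(ε * ∑ j, |(c j : ℝ)|) ≤ ∑ j, (c j : ℝ) * y j := by
  rw [mul_comm] at hne'
  obtain ⟨h1, h2⟩ := Pool.Agent.W423.MG.nonvan2 ε hε κ M hκ c y q hne'
  rw [Finset.mul_sum, ← Finset.sum_neg_distrib]
  refine Finset.sum_le_sum fun j _ => ?_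
  rcases lt_or_ge (c j) 0 with h | h
  · have h' : (c j : ℝ) < 0 := by exact_mod_cast h
    rw [abs_of_neg h']
    nlinarith [h2 j h]
  · have h' : (0:ℝ) ≤ c j := by exact_mod_cast h
    rw [abs_of_nonneg h']
    nlinarith [h1 j, mul_nonneg h' (h1 j), mul_nonneg hε.le h']

/-- the pairing with a relation -/
lemma pairing (v : Fin r → Fin N → ℕ) (θ : Fin r → ℝ) (α : Fin N → ℝ) (T δ ϑ : ℝ)
    (x : Fin (N+1) → ℝ) (c : Fin r → ℤ) :
    ∑ j, (c j : ℝ) * Y (av v) (yW v θ α T δ ϑ) x j =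
      ∑ i : Fin N, ((Sh v c i : ℤ) : ℝ) * x i.succ - ((∑ j, c j : ℤ) : ℝ) * (x 0 + T) -
      δ * ∑ i : Fin N, α i * ((Sh v c i : ℤ) : ℝ) - ϑ * ∑ j, (c j : ℝ) * θ j := by
  have h1 : ∑ i : Fin N, ((Sh v c i : ℤ) : ℝ) * x i.succ =
      ∑ j, (c j : ℝ) * ∑ i, (v j i : ℝ) * x i.succ := by
    unfold Sh
    push_cast
    simp only [Finset.mul_sum, Finset.sum_mul]
    rw [Finset.sum_comm]
    exact Finset.sum_congr rfl fun i _ => Finset.sum_congr rfl fun j _ => by ring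
  have h2 : ∑ i : Fin N, α i * ((Sh v c i : ℤ) : ℝ) =
      ∑ j, (c j : ℝ) * ∑ i, α i * (v j i : ℝ) := by
    unfold Sh
    push_cast
    simp only [Finset.mul_sum]
    rw [Finset.sum_comm]
    exact Finset.sum_congr rfl fun i _ => Finset.sum_congr rfl fun j _ => by ring
  rw [h1, h2]
  push_cast
  rw [Finset.sum_mul, Finset.mul_sum, Finset.mul_sum, ← Finset.sum_sub_distrib,
    ← Finset.sum_sub_distrib, ← Finset.sum_sub_distrib]
  refine Finset.sum_congr rfl fun j _ => ?_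
  rw [Y_av', yW]
  ring

/-- the size of a relation -/
noncomputable def szc (v : Fin r → Fin N → ℕ) (θ : Fin r → ℝ) (α : Fin N → ℝ)
    (c : Fin r → ℤ) : ℝ :=
  ∑ j, |(c j : ℝ)| + ∑ i, |α i * ((Sh v c i : ℤ) : ℝ)| + |∑ j, (c j : ℝ) * θ j|

lemma szc_nonneg (v : Fin r → Fin N → ℕ) (θ : Fin r → ℝ) (α : Fin N → ℝ)
    (c : Fin r → ℤ) : 0 ≤ szc v θ α c := by
  unfold szc; positivity

lemma killW1 (v : Fin r → Fin N → ℕ) (w : Fin N → ℝ) (θ : Fin r → ℝ) (α : Fin N → ℝ) (ε : ℝ)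
    (hε : 0 < ε) (κ : Fin r → ℕ) (M : ℕ)
    (hκ : ∀ j, κ j ≤ M) (s T δ ϑ : ℝ) (hϑ : 0 < ϑ) (c : Fin r → ℤ) (hc : ∑ j, c j = 1)
    (hT : (ε + |δ| + ϑ) * szc v θ α c < T)
    (S : Finset (Fin N)) (q : MvPolynomial (Fin r) ℂ) (hS : Bc v c ⊆ S) :
    HW v w ε κ s (yW v θ α T δ ϑ) S (q * ∏ j, (if c j < 0 then X j * dm M j else 1)) = 0 := by
  classical
  unfold HW
  refine integral_eq_zero_of_ae ?_
  filter_upwards [ae_ms (S.map (Fin.succEmb N))] with x hx
  obtain ⟨hx0, hxS⟩ := hx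
  by_contra hne
  have hne' : DD (pk ε κ) (Y (av v) (yW v θ α T δ ϑ) x)
      (q * ∏ j, (if c j < 0 then X j * dm M j else 1)) ≠ 0 := by
    intro h
    apply hne
    simp only [Pi.zero_apply]
    rw [h, mul_zero]
  have h3 := nonvan ε hε κ M hκ c _ q hne'
  rw [pairing, hc] at h3
  have h5 : ∑ i : Fin N, ((Sh v c i : ℤ) : ℝ) * x i.succ ≤ 0 := by
    refine Finset.sum_nonpos fun i _ => ?_
    rcases lt_or_ge 0 (Sh v c i) with h | h
    · have hiS : i ∈ S := hS (by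
        unfold Bc
        rw [Finset.mem_filter]
        exact ⟨Finset.mem_univ _, h⟩)
      rw [hxS i.succ (by simp [hiS]), mul_zero]
    · have h' : ((Sh v c i : ℤ) : ℝ) ≤ 0 := by exact_mod_cast h
      exact mul_nonpos_of_nonpos_of_nonneg h' (hx0 _)
  have h6 := hx0 0
  have h7 : -(δ * ∑ i : Fin N, α i * ((Sh v c i : ℤ) : ℝ)) ≤
      |δ| * ∑ i, |α i * ((Sh v c i : ℤ) : ℝ)| := by
    refine (neg_le_abs _).trans ?_
    rw [abs_mul]
    exact mul_le_mul_of_nonneg_left (Finset.abs_sum_le_sum_abs _ _) (abs_nonneg _)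
  have h8 : -(ϑ * ∑ j, (c j : ℝ) * θ j) ≤ ϑ * |∑ j, (c j : ℝ) * θ j| := by
    refine (neg_le_abs _).trans ?_
    rw [abs_mul, abs_of_pos hϑ]
  unfold szc at hT
  have a1 : 0 ≤ ∑ j, |(c j : ℝ)| := by positivity
  have a2 : 0 ≤ ∑ i, |α i * ((Sh v c i : ℤ) : ℝ)| := by positivity
  have a3 : 0 ≤ |∑ j, (c j : ℝ) * θ j| := by positivity
  push_cast at h3
  nlinarith [mul_nonneg hε.le a2, mul_nonneg hε.le a3, mul_nonneg (abs_nonneg δ) a1,
    mul_nonneg (abs_nonneg δ) a3, mul_nonneg hϑ.le a1, mul_nonneg hϑ.le a2]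

lemma killW0 (v : Fin r → Fin N → ℕ) (w : Fin N → ℝ) (θ : Fin r → ℝ) (α : Fin N → ℝ) (ε : ℝ)
    (hε : 0 < ε) (κ : Fin r → ℕ) (M : ℕ)
    (hκ : ∀ j, κ j ≤ M) (s T δ ϑ : ℝ) (c : Fin r → ℤ) (hc : ∑ j, c j = 0)
    (hSh : ∀ i, Sh v c i = 0)
    (hT : ε * (∑ j, |(c j : ℝ)|) < ϑ * ∑ j, (c j : ℝ) * θ j)
    (S : Finset (Fin N)) (q : MvPolynomial (Fin r) ℂ) :
    HW v w ε κ s (yW v θ α T δ ϑ) S (q * ∏ j, (if c j < 0 then X j * dm M j else 1)) = 0 := by
  classical
  unfold HW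
  refine integral_eq_zero_of_ae ?_
  filter_upwards [ae_ms (S.map (Fin.succEmb N))] with x hx
  obtain ⟨hx0, hxS⟩ := hx
  by_contra hne
  have hne' : DD (pk ε κ) (Y (av v) (yW v θ α T δ ϑ) x)
      (q * ∏ j, (if c j < 0 then X j * dm M j else 1)) ≠ 0 := by
    intro h
    apply hne
    simp only [Pi.zero_apply]
    rw [h, mul_zero]
  have h3 := nonvan ε hε κ M hκ c _ q hne'
  rw [pairing, hc] at h3
  simp only [hSh] at h3
  simp only [Int.cast_zero, zero_mul, mul_zero, Finset.sum_const_zero, sub_zero, zero_sub] at h3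
  linarith

/-- **The functional kills `k * W`.** -/
theorem taskKill : TaskKill := by
  intro r N v w hwp θ e W k hR hk α
  classical
  obtain ⟨M, Cs, Cs0, q, q0, hc, hc0, hrel⟩ := hR
  obtain ⟨cf, hcf⟩ := DD_sum (r := r) M
  set KK := Fintype.piFinset (fun _ : Fin r => Finset.range (M+1)) with hKK
  set K1 : ℝ := ∑ c ∈ Cs, szc v θ α c with hK1
  set K3 : ℝ := ∑ c ∈ Cs0, |∑ j, (c j : ℝ) * θ j|⁻¹ * ∑ j, |(c j : ℝ)| with hK3
  have hK1' : 0 ≤ K1 := Finset.sum_nonneg fun c _ => szc_nonneg v θ α c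
  have hK3' : 0 ≤ K3 := by positivity
  refine ⟨K1 + K3, (∑ κ ∈ KK, (Lam v κ : ℝ)) + 1, by positivity, by positivity,
    fun ε hε ϑ hϑ hεϑ δ T hT s hs => ?_⟩
  have hsm : 0 < ε + |δ| + ϑ := by positivity
  have hT1 : (ε + |δ| + ϑ) * K1 < T := by
    refine lt_of_le_of_lt (mul_le_mul_of_nonneg_left ?_ hsm.le) hT
    linarith
  have hεϑ1 : ε * K3 < ϑ := by
    refine lt_of_le_of_lt (mul_le_mul_of_nonneg_left ?_ hε.le) hεϑ
    linarith
  have hzero : ∀ κ ∈ KK, HW v w ε κ s (yW v θ α T δ ϑ) ∅ ((k * W) * ∏ j, dm M j) = 0 ∧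
      Gd v ε κ ∅ ((k * W) * ∏ j, dm M j) ∧
      (Lam v κ : ℝ) + 1 ≤ s := by
    intro κ hκ
    have hκM : ∀ j, κ j ≤ M := fun j => by
      have := (Fintype.mem_piFinset.1 hκ) j
      rw [Finset.mem_range] at this
      omega
    have hs' : (Lam v κ : ℝ) + 1 ≤ s := by
      refine le_trans ?_ hs
      have := Finset.single_le_sum (f := fun κ : Fin r → ℕ => (Lam v κ : ℝ))
        (fun _ _ => Nat.cast_nonneg _) hκ
      linarith
    have hGd : Gd v ε κ ∅ ((k * W) * ∏ j, dm M j) := by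
      intro i _ hi
      have h1 : ∃ j, 0 < κ j * v j i := by
        by_contra hcon
        push Not at hcon
        have : ell v κ i = 0 := Finset.sum_eq_zero fun j _ => Nat.le_zero.1 (hcon j)
        omega
      obtain ⟨j, hj⟩ := h1
      have hj1 : 0 < κ j := Nat.pos_of_mul_pos_right hj
      have hj2 : 0 < v j i := Nat.pos_of_mul_pos_left hj
      refine (goodDir_lin hε (κ := κ) j hj2).of_dvd ?_
      refine Dvd.dvd.mul_left ?_ _
      exact (dm_dvd M j (κ j) hj1 (hκM j)).trans (Finset.dvd_prod_of_mem _ (Finset.mem_univ j))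
    refine ⟨?_, hGd, hs'⟩
    set L : List (Fin N) := (Finset.univ.filter fun i =>
      0 < ell v κ i ∧ (ell v κ i : ℝ) ≠ w i).toList with hL
    have hLnd : L.Nodup := Finset.nodup_toList _
    have hLell : ∀ i ∈ L, (ell v κ i : ℝ) ≠ w i := fun i hi => by
      have : 0 < ell v κ i ∧ (ell v κ i : ℝ) ≠ w i := by simpa [hL] using hi
      exact this.2
    have hkgood : ∀ i, i ∉ L → 0 < ell v κ i → GoodDir v ε κ i (k * e) := by
      intro i hi h
      have h1 : (ell v κ i : ℝ) = w i := by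
        by_contra h'
        exact hi (by rw [hL, Finset.mem_toList, Finset.mem_filter]; exact ⟨Finset.mem_univ _, h, h'⟩)
      have h2 := hk κ i h1
      rw [← Submodule.mem_toAddSubmonoid] at h2
      refine Submodule.span_induction (p := fun x _ => GoodDir v ε κ i x) ?_ ?_ ?_ ?_
        (by simpa [Ideal.span] using h2)
      · rintro x ⟨j, hj, rfl⟩
        exact goodDir_lin hε j hj
      · exact GoodDir.zero
      · intro x y _ _ hx hy
        exact hx.add hy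
      · intro a x _ hx
        exact hx.mul_left a
    rw [← FW_eq v w hwp ε hε κ s hs' _ L ∅ _ (by simp) hLnd hLell hGd]
    have h3 : (k * W) * ∏ j, dm M j =
        ∑ c ∈ Cs, (∏ i ∈ Bc v c, elW v w i) *
          (((k * e) * q c) * ∏ j, (if c j < 0 then X j * dm M j else 1)) +
        ∑ c ∈ Cs0, (((k * e) * q0 c) * ∏ j, (if c j < 0 then X j * dm M j else 1)) := by
      rw [mul_assoc, hrel, mul_add, Finset.mul_sum, Finset.mul_sum]
      refine congrArg₂ (· + ·) (Finset.sum_congr rfl fun c _ => ?_)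
        (Finset.sum_congr rfl fun c _ => ?_)
      · ring
      · ring
    have hH1 : ∀ c ∈ Cs, Hyp v ε κ L ∅
        (((k * e) * q c) * ∏ j, (if c j < 0 then X j * dm M j else 1)) :=
      fun c _ i _ h1 h2 => ((hkgood i h1 h2).mul_right _).mul_right _
    have hH0 : ∀ c ∈ Cs0, Hyp v ε κ L ∅
        (((k * e) * q0 c) * ∏ j, (if c j < 0 then X j * dm M j else 1)) :=
      fun c _ i _ h1 h2 => ((hkgood i h1 h2).mul_right _).mul_right _
    have hH1' : ∀ c ∈ Cs, Hyp v ε κ L ∅ ((∏ i ∈ Bc v c, elW v w i) *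
        (((k * e) * q c) * ∏ j, (if c j < 0 then X j * dm M j else 1))) :=
      fun c hcc => (hH1 c hcc).mul_left _
    have hsumH : ∀ (t : Finset (Fin r → ℤ)) (f : (Fin r → ℤ) → MvPolynomial (Fin r) ℂ),
        (∀ c ∈ t, Hyp v ε κ L ∅ (f c)) → Hyp v ε κ L ∅ (∑ c ∈ t, f c) :=
      fun t f hf i h0 h1 h2 => GoodDir.sum t f fun c hc => hf c hc i h0 h1 h2
    rw [h3, FW_add v w hwp ε hε κ s hs' _ L ∅ _ _ (hsumH _ _ hH1') (hsumH _ _ hH0),
      FW_sum v w hwp ε hε κ s hs' _ _ _ _ _ hH1', FW_sum v w hwp ε hε κ s hs' _ _ _ _ _ hH0]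
    have hA : ∑ c ∈ Cs, FW v w ε κ s (yW v θ α T δ ϑ) L ∅ ((∏ i ∈ Bc v c, elW v w i) *
        (((k * e) * q c) * ∏ j, (if c j < 0 then X j * dm M j else 1))) = 0 := by
      refine Finset.sum_eq_zero fun c hcc => ?_
      obtain ⟨L', hL'⟩ := FW_steps v w hwp ε hε κ s hs' (yW v θ α T δ ϑ) (Bc v c) L ∅ _
        (Finset.disjoint_empty_right _) hLnd hLell (hH1 c hcc)
      rw [hL', Finset.union_empty]
      refine FW_kill v w ε κ s _ _ (Bc v c) (fun S q' hS => ?_) L' _ _ subset_rfl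
      refine killW1 v w θ α ε hε κ M hκM s T δ ϑ hϑ c (hc c hcc) (lt_of_le_of_lt ?_ hT1) S q' hS
      refine mul_le_mul_of_nonneg_left ?_ hsm.le
      exact Finset.single_le_sum (f := fun c : Fin r → ℤ => szc v θ α c)
        (fun c _ => szc_nonneg v θ α c) hcc
    have hB : ∑ c ∈ Cs0, FW v w ε κ s (yW v θ α T δ ϑ) L ∅
        (((k * e) * q0 c) * ∏ j, (if c j < 0 then X j * dm M j else 1)) = 0 := by
      refine Finset.sum_eq_zero fun c hcc => ?_
      obtain ⟨h1, h2, h4⟩ := hc0 c hcc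
      refine FW_kill v w ε κ s _ _ ∅ (fun S q' _ => ?_) L _ _ subset_rfl
      refine killW0 v w θ α ε hε κ M hκM s T δ ϑ c h1 h2 ?_ S q'
      have h7 := Finset.single_le_sum
        (f := fun c : Fin r → ℤ => |∑ j, (c j : ℝ) * θ j|⁻¹ * ∑ j, |(c j : ℝ)|)
        (fun c _ => by positivity) hcc
      rw [abs_of_pos h4] at h7
      have h8 : ε * ((∑ j, (c j : ℝ) * θ j)⁻¹ * ∑ j, |(c j : ℝ)|) < ϑ :=
        lt_of_le_of_lt (mul_le_mul_of_nonneg_left h7 hε.le) hεϑ1
      have h9 := mul_lt_mul_of_pos_left h8 h4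
      have h10 : (∑ j, (c j : ℝ) * θ j) * (ε * ((∑ j, (c j : ℝ) * θ j)⁻¹ *
          ∑ j, |(c j : ℝ)|)) = ε * ∑ j, |(c j : ℝ)| := by
        have := h4.ne'
        field_simp
      rw [h10] at h9
      linarith
    rw [hA, hB, add_zero]
  have hfin : Φ (ph ε) ∅ (lmw s w) (av v) (yW v θ α T δ ϑ) (k * W) =
      ∑ κ ∈ KK, (∏ j, cf (κ j)) * HW v w ε κ s (yW v θ α T δ ϑ) ∅ ((k * W) * ∏ j, dm M j) := by
    unfold Φ HW
    simp only [← integral_const_mul]
    rw [Finset.map_empty, ← integral_finsetSum]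
    · refine integral_congr_ae (Eventually.of_forall fun x => ?_)
      simp only
      rw [← hcf ε hε, Finset.mul_sum]
      exact Finset.sum_congr rfl fun κ _ => by ring
    · intro κ hκ
      have := HW_integrable v w hwp ε hε κ s (hzero κ hκ).2.2 (yW v θ α T δ ϑ) ∅ _
        (hzero κ hκ).2.1
      rw [Finset.map_empty] at this
      exact this.const_mul _
  rw [hfin]
  exact Finset.sum_eq_zero fun κ hκ => by rw [(hzero κ hκ).1, mul_zero]

end Pool.Agent.W191.NC
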